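import Pool.Agent.Run7.h640.FP.Fin

/-!
# The strict growth of the minimal balance constants is a finite question for each width

`delta w` is the infimum `δ_w` of the balance constants of the finite posets of width `w`, as in the
problem.  For every `w ≥ 1` there are constants `C, c > 0` such that for every poset `P` of width `w`
and every `n ≥ w` some poset `Q` of width `w` with at most `n` elements has
`balance Q ≤ balance P + C n ^ (-c)`; so `δ_w` is attained up to `C n ^ (-c)` by posets with at most
`n` elements.  Consequently `δ_w < δ_{w+1}` if and only if, for some `n`, some poset `Q₀` of width `w`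
with at most `n` elements has balance constant smaller by `2 C n ^ (-c)` than all posets of width
`w + 1` with at most `n` elements: the inequality of the problem at each `w`, if true, has a finite
proof.

Proof.  If the balance constant of `P` is less than `1/2 - ε`, then by a starting result every
element of `P` is incomparable to at most `K` others, with a constant `K` depending on `ε` only; by
another one some poset of width `w` has balance constant at most `1/2 - 1/(12 w - 8)`.  Number `P` by a
linear extension; elements at distance at least `D = 2 K + 2` are comparable.  A uniformly random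
linear extension of such a poset forgets the far past exponentially fast, by a contraction
argument, so the balance constant is determined up to `4 ρ ^ q` by the windows of length
`R = O(q)`; there are at most `2 ^ (2 R D)` windows of length `2 R`, and the part between two equal
windows can be cut out.  This keeps the width.
-/

set_option autoImplicit false

namespace Pool.Agent.Results.MP_c890a7_co.FiniteReduction

open Pool.Agent.H13R3.WB

/-- the width of the poset `P` is `w` -/
def Width (w : ℕ) (P : Type) [PartialOrder P] : Prop :=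
  (∃ s : Finset P, s.card = w ∧ IsAntichain (· ≤ ·) (s : Set P)) ∧
    ∀ s : Finset P, IsAntichain (· ≤ ·) (s : Set P) → s.card ≤ w

/-- the infimum of the balance constants of the finite posets of width `w` -/
noncomputable def delta (w : ℕ) : ℝ :=
  sInf {d : ℝ | ∃ (P : Type) (_ : Fintype P) (_ : PartialOrder P), Width w P ∧ d = balance P}

theorem result :
    (∀ w : ℕ, 1 ≤ w → ∃ C c : ℝ, 0 < C ∧ 0 < c ∧
      ∀ (P : Type) [Fintype P] [PartialOrder P], Width w P → ∀ n : ℕ, w ≤ n →
        ∃ (Q : Type) (_ : Fintype Q) (_ : PartialOrder Q),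
          Fintype.card Q ≤ n ∧ Width w Q ∧ balance Q ≤ balance P + C * (n : ℝ) ^ (-c)) ∧
    (∀ w : ℕ, 1 ≤ w → ∃ C c : ℝ, 0 < C ∧ 0 < c ∧
      (delta w < delta (w + 1) ↔
        ∃ (n : ℕ) (Q₀ : Type) (_ : Fintype Q₀) (_ : PartialOrder Q₀), w + 1 ≤ n ∧
          Fintype.card Q₀ ≤ n ∧ Width w Q₀ ∧
          ∀ (Q : Type) [Fintype Q] [PartialOrder Q], Fintype.card Q ≤ n → Width (w + 1) Q →
            balance Q₀ + C * (n : ℝ) ^ (-c) ≤ balance Q)) := by
  have h1 : ∀ w : ℕ, 1 ≤ w → ∃ C c : ℝ, 0 < C ∧ 0 < c ∧
      ∀ (P : Type) [Fintype P] [PartialOrder P], Width w P → ∀ n : ℕ, w ≤ n →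
        ∃ (Q : Type) (_ : Fintype Q) (_ : PartialOrder Q),
          Fintype.card Q ≤ n ∧ Width w Q ∧ balance Q ≤ balance P + C * (n : ℝ) ^ (-c) :=
    fun w hw => Run7.h640.FP.width_final w hw
  refine ⟨h1, ?_⟩
  intro w hw
  obtain ⟨C, c, hC, hc, h⟩ := h1 (w + 1) (by omega)
  have hbdd : ∀ w : ℕ, BddBelow {d : ℝ | ∃ (P : Type) (_ : Fintype P) (_ : PartialOrder P),
      Width w P ∧ d = balance P} := by
    intro w
    refine ⟨0, ?_⟩
    rintro d ⟨P, i1, i2, _, rfl⟩
    exact Run7.h640.FP.balance_nonneg P
  have hne : ∀ w : ℕ, {d : ℝ | ∃ (P : Type) (_ : Fintype P) (_ : PartialOrder P),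
      Width w P ∧ d = balance P}.Nonempty := by
    intro w
    obtain ⟨Q, i1, i2, _, hQ⟩ := Run7.h640.FP.exists_anti Run7.h640.FP.all w
    exact ⟨balance Q, Q, i1, i2, hQ, rfl⟩
  refine ⟨2 * C, c, by positivity, hc, ?_, ?_⟩
  · intro hlt
    -- a poset of width `w` with balance constant close to `delta w`
    set g := delta (w + 1) - delta w with hg
    have hg0 : 0 < g := by rw [hg]; linarith
    have hex : ∃ d ∈ {d : ℝ | ∃ (P : Type) (_ : Fintype P) (_ : PartialOrder P),
        Width w P ∧ d = balance P}, d < delta w + g / 2 := by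
      apply exists_lt_of_csInf_lt (hne w)
      show delta w < _
      linarith
    obtain ⟨d, ⟨P, i1, i2, hP, rfl⟩, hd⟩ := hex
    have ht : Filter.Tendsto (fun n : ℕ => 2 * C * (n : ℝ) ^ (-c)) Filter.atTop
        (nhds (2 * C * 0)) :=
      ((tendsto_rpow_neg_atTop hc).comp tendsto_natCast_atTop_atTop).const_mul _
    rw [mul_zero] at ht
    obtain ⟨n, ⟨hn, hn2⟩, hn3⟩ := (((ht.eventually (gt_mem_nhds (half_pos hg0))).and
      (Filter.eventually_ge_atTop (w + 1))).and
      (Filter.eventually_ge_atTop (Fintype.card P))).exists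
    refine ⟨n, P, i1, i2, hn2, hn3, hP, ?_⟩
    intro Q _ _ _ hQ
    have h2 : delta (w + 1) ≤ balance Q := csInf_le (hbdd (w + 1)) ⟨Q, _, _, hQ, rfl⟩
    linarith
  · rintro ⟨n, Q₀, i1, i2, hn, hQn, hQ₀, hQ⟩
    have hn0 : (0 : ℝ) < n := by
      have : 0 < n := by omega
      exact_mod_cast this
    have hpos : 0 < C * (n : ℝ) ^ (-c) := mul_pos hC (Real.rpow_pos_of_pos hn0 _)
    have h2 : delta w ≤ balance Q₀ := csInf_le (hbdd w) ⟨Q₀, i1, i2, hQ₀, rfl⟩
    have h3 : delta w + C * (n : ℝ) ^ (-c) ≤ delta (w + 1) := by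
      apply le_csInf (hne (w + 1))
      rintro d ⟨P, j1, j2, hP, rfl⟩
      obtain ⟨Q, k1, k2, h4, h5, h6⟩ := h P hP n hn
      have := hQ Q h4 h5
      linarith
    linarith

end Pool.Agent.Results.MP_c890a7_co.FiniteReduction
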