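import Pool.Agent.Run7.h281.LX.D3
import Pool.Agent.Run7.h281.LX.D4
import Pool.Agent.Run7.h281.LX.D5

/-!
# Upper bounds for the minimal balance constants of the widths 3, 4 and 5

With `δ_w` the infimum of the balance constants of the finite posets of width `w`, as in the
problem, `δ_3 ≤ 6/17 = 0.3529...`, `δ_4 ≤ 2174/5839 = 0.3723...` and
`δ_5 ≤ 7989/20396 = 0.3916...`.  Each bound is the balance constant of an explicit poset with
`10` (width `3`) or `13` elements, whose numbers of linear extensions are checked by tables of the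
upper sets.
-/

set_option autoImplicit false

namespace Pool.Agent.Results.MP_c890a7_co.SmallWidths

open Run7.h281.LX

theorem result :
    ∀ δ : ℕ → ℝ,
      (∀ w : ℕ, δ w = sInf {d : ℝ | ∃ (n : ℕ) (r : Fin n → Fin n → Prop),
          (∀ a, r a a) ∧ (∀ a b c, r a b → r b c → r a c) ∧
          (∀ a b, r a b → r b a → a = b) ∧
          (∃ s : Finset (Fin n), s.card = w ∧ ∀ a ∈ s, ∀ b ∈ s, a ≠ b → ¬ r a b) ∧
          (∀ s : Finset (Fin n), (∀ a ∈ s, ∀ b ∈ s, a ≠ b → ¬ r a b) → s.card ≤ w) ∧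
          d = sSup {t : ℝ | ∃ x y : Fin n, ¬ r x y ∧ ¬ r y x ∧
            t = min
              ((Nat.card {σ : Equiv.Perm (Fin n) //
                  (∀ a b, r a b → σ a ≤ σ b) ∧ σ x < σ y} : ℝ) /
                (Nat.card {σ : Equiv.Perm (Fin n) // ∀ a b, r a b → σ a ≤ σ b} : ℝ))
              ((Nat.card {σ : Equiv.Perm (Fin n) //
                  (∀ a b, r a b → σ a ≤ σ b) ∧ σ y < σ x} : ℝ) /
                (Nat.card {σ : Equiv.Perm (Fin n) // ∀ a b, r a b → σ a ≤ σ b} : ℝ))}}) →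
      δ 3 ≤ 6 / 17 ∧ δ 4 ≤ 2174 / 5839 ∧ δ 5 ≤ 7989 / 20396 := by
  intro δ hδ
  refine ⟨?_, ?_, ?_⟩
  · have h := c3.delta 3 6 17 c3_okO c3_okW c3_okC (by norm_num) δ hδ
    norm_num at h ⊢
    exact h
  · have h := c4.delta 4 2174 5839 c4_okO c4_okW c4_okC (by norm_num) δ hδ
    norm_num at h ⊢
    exact h
  · have h := c5.delta 5 7989 20396 c5_okO c5_okW c5_okC (by norm_num) δ hδ
    norm_num at h ⊢
    exact h

end Pool.Agent.Results.MP_c890a7_co.SmallWidths
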